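import Pool.Agent.GBS.Stmts

/-!
Row CNV of table gbs: a smooth path between two cylinder metrics.
-/

noncomputable section

open scoped ContDiff Topology RealInnerProductSpace
open Set MeasureTheory Matrix

set_option maxSynthPendingDepth 3

namespace Pool.Agent.GBS.H77

open Pool.Agent.RF Pool.Agent.MVS

/-- the path -/
def Hp (G₀ G₁ : E5 → Bil E5) (t : ℝ) (x : E5) : Bil E5 :=
  (Real.cos t ^ 2) • G₀ x + (Real.sin t ^ 2) • G₁ x

theorem hp_apply (G₀ G₁ : E5 → Bil E5) (t : ℝ) (x v w : E5) :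
    Hp G₀ G₁ t x v w = Real.cos t ^ 2 * G₀ x v w + Real.sin t ^ 2 * G₁ x v w := rfl

/-- CNV. -/
theorem cnv : CnvStatement := by
  intro G₀ G₁ h0 h1
  refine ⟨Hp G₀ G₁, ⟨?_, ?_⟩, ?_, ?_⟩
  · intro t
    have hcs : Real.cos t ^ 2 + Real.sin t ^ 2 = 1 := Real.cos_sq_add_sin_sq t
    refine ⟨⟨h0.metric.isOpen, ?_, ?_, ?_⟩, ?_, ?_⟩
    · exact (h0.metric.smooth.const_smul _).add (h1.metric.smooth.const_smul _)
    · intro x hx v w
      rw [hp_apply, hp_apply, h0.metric.symm x hx v w, h1.metric.symm x hx v w]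
    · intro x hx v hv
      rw [hp_apply]
      have ha := h0.metric.pos x hx v hv
      have hb := h1.metric.pos x hx v hv
      rcases eq_or_lt_of_le (sq_nonneg (Real.cos t)) with h | h
      · rw [← h, zero_add] at hcs
        rw [← h, hcs]
        linarith
      · have h2 := mul_pos h ha
        have h3 := mul_nonneg (sq_nonneg (Real.sin t)) hb.le
        linarith
    · intro c hc x hx
      unfold Hp
      rw [h0.homog c hc x hx, h1.homog c hc x hx, smul_add, smul_comm, smul_comm (Real.sin t ^ 2)]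
    · intro x hx w
      rw [hp_apply, h0.radial x hx w, h1.radial x hx w, ← add_mul, hcs, one_mul]
  · have hm : MapsTo (fun z : Z => z.2) UZ (Om (Fin 5)) := fun z hz => hz.2
    have a0 : ContDiffOn ℝ ∞ (fun z : Z => G₀ z.2) UZ :=
      h0.metric.smooth.comp contDiff_snd.contDiffOn hm
    have a1 : ContDiffOn ℝ ∞ (fun z : Z => G₁ z.2) UZ :=
      h1.metric.smooth.comp contDiff_snd.contDiffOn hm
    have c0 : ContDiffOn ℝ ∞ (fun z : Z => Real.cos z.1 ^ 2) UZ :=
      ((Real.contDiff_cos.comp contDiff_fst).pow 2).contDiffOn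
    have c1 : ContDiffOn ℝ ∞ (fun z : Z => Real.sin z.1 ^ 2) UZ :=
      ((Real.contDiff_sin.comp contDiff_fst).pow 2).contDiffOn
    exact (c0.smul a0).add (c1.smul a1)
  · funext x
    unfold Hp
    rw [Real.cos_zero, Real.sin_zero]
    norm_num
  · funext x
    unfold Hp
    rw [Real.cos_pi_div_two, Real.sin_pi_div_two]
    norm_num

end Pool.Agent.GBS.H77
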