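import Pool.Agent.GBS.StmtsB

/-!
Row EPD of table gbs: the contraction of a product of vectors is a determinant.
-/

noncomputable section

open scoped ContDiff Topology RealInnerProductSpace
open Set MeasureTheory Matrix

namespace Pool.Agent.GBS.H77

open Pool.Agent.RF Pool.Agent.MVS

theorem upd_sum (M : M5) (r : Fin 5) (v : Fin 5 → ℝ) :
    (M.updateRow r v).det = ∑ i, v i * (M.updateRow r (Pi.single i 1)).det := by
  let L : (Fin 5 → ℝ) →ₗ[ℝ] ℝ :=
    { toFun := fun w => (M.updateRow r w).det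
      map_add' := fun x y => by rw [Matrix.det_updateRow_add]
      map_smul' := fun c x => by rw [Matrix.det_updateRow_smul, RingHom.id_apply, smul_eq_mul] }
  have h := LinearMap.pi_apply_eq_sum_univ L v
  have h2 : ∀ i : Fin 5, (fun j => if i = j then (1 : ℝ) else 0) = Pi.single i 1 := by
    intro i
    funext j
    rw [Pi.single_apply]
    simp only [eq_comm]
  simp only [h2, smul_eq_mul] at h
  exact h

theorem s1 (u v x y z : Fin 5 → ℝ) : (Matrix.of ![u, v, x, y, z]).det =
    ∑ i, v i * (Matrix.of ![u, Pi.single i 1, x, y, z]).det := by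
  have e : ∀ w : Fin 5 → ℝ, (Matrix.of ![u, w, x, y, z] : M5) =
      (Matrix.of ![u, 0, x, y, z] : M5).updateRow 1 w := by
    intro w
    ext i j
    fin_cases i <;> simp [Matrix.updateRow_apply]
  rw [e, upd_sum]
  refine Finset.sum_congr rfl fun i _ => ?_
  rw [← e]

theorem s2 (u v x y z : Fin 5 → ℝ) : (Matrix.of ![u, x, v, y, z]).det =
    ∑ i, v i * (Matrix.of ![u, x, Pi.single i 1, y, z]).det := by
  have e : ∀ w : Fin 5 → ℝ, (Matrix.of ![u, x, w, y, z] : M5) =
      (Matrix.of ![u, x, 0, y, z] : M5).updateRow 2 w := by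
    intro w
    ext i j
    fin_cases i <;> simp [Matrix.updateRow_apply]
  rw [e, upd_sum]
  refine Finset.sum_congr rfl fun i _ => ?_
  rw [← e]

theorem s3 (u v x y z : Fin 5 → ℝ) : (Matrix.of ![u, x, y, v, z]).det =
    ∑ i, v i * (Matrix.of ![u, x, y, Pi.single i 1, z]).det := by
  have e : ∀ w : Fin 5 → ℝ, (Matrix.of ![u, x, y, w, z] : M5) =
      (Matrix.of ![u, x, y, 0, z] : M5).updateRow 3 w := by
    intro w
    ext i j
    fin_cases i <;> simp [Matrix.updateRow_apply]
  rw [e, upd_sum]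
  refine Finset.sum_congr rfl fun i _ => ?_
  rw [← e]

theorem s4 (u v x y z : Fin 5 → ℝ) : (Matrix.of ![u, x, y, z, v]).det =
    ∑ i, v i * (Matrix.of ![u, x, y, z, Pi.single i 1]).det := by
  have e : ∀ w : Fin 5 → ℝ, (Matrix.of ![u, x, y, z, w] : M5) =
      (Matrix.of ![u, x, y, z, 0] : M5).updateRow 4 w := by
    intro w
    ext i j
    fin_cases i <;> simp [Matrix.updateRow_apply]
  rw [e, upd_sum]
  refine Finset.sum_congr rfl fun i _ => ?_
  rw [← e]

/-- EPD. -/
theorem epd : EpdStmt := by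
  intro u a b c d
  unfold ctr eps
  rw [s1 u a b c d]
  refine Finset.sum_congr rfl fun i _ => ?_
  rw [s2 u b _ c d, Finset.mul_sum]
  refine Finset.sum_congr rfl fun j _ => ?_
  rw [s3 u c _ _ d, Finset.mul_sum, Finset.mul_sum]
  refine Finset.sum_congr rfl fun k _ => ?_
  rw [s4 u d, Finset.mul_sum, Finset.mul_sum, Finset.mul_sum]
  refine Finset.sum_congr rfl fun l _ => ?_
  ring

end Pool.Agent.GBS.H77
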