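import Pool.Agent.GBS.StmtsC
import Pool.Agent.Helper92_GBS.ALR

/-!
Row RNF of table gbs: the norm of the curvature tensor and the trace-free Ricci tensor in a frame.
-/

noncomputable section

open scoped ContDiff Topology RealInnerProductSpace
open Set MeasureTheory Matrix

namespace Pool.Agent.GBS.H77R

open Pool.Agent.RF Pool.Agent.MVS

theorem swap2 (f : Fin 5 → Fin 5 → Fin 5 → ℝ) :
    ∑ l, ∑ a, ∑ b, f l a b = ∑ a, ∑ b, ∑ l, f l a b := by
  rw [Finset.sum_comm]
  refine Finset.sum_congr rfl fun a _ => ?_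
  rw [Finset.sum_comm]

theorem trans_mul_trace (X M : M5) : (Xᵀ * M).trace = ∑ i, ∑ j, X i j * M i j := by
  rw [Finset.sum_comm]
  simp only [Matrix.trace, Matrix.diag_apply, Matrix.mul_apply, Matrix.transpose_apply]

theorem quad_entry (h Y : M5) (i j : Fin 5) :
    (h * Y * hᵀ) i j = ∑ k, ∑ l, h i k * h j l * Y k l := by
  simp only [Matrix.mul_apply, Matrix.transpose_apply, Finset.sum_mul]
  rw [Finset.sum_comm]
  refine Finset.sum_congr rfl fun k _ => Finset.sum_congr rfl fun l _ => ?_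
  ring

theorem step (h E θ X Y Zx Zy : M5) (hE : θ * E = 1) (hh : h = E * Eᵀ) (hX : X = θᵀ * Zx * θ)
    (hY : Y = θᵀ * Zy * θ) :
    ∑ i, ∑ j, ∑ k, ∑ l, h i k * h j l * (X i j * Y k l) = ∑ m, ∑ n, Zx m n * Zy m n := by
  have e0 : ∑ i, ∑ j, ∑ k, ∑ l, h i k * h j l * (X i j * Y k l) =
      (Xᵀ * (h * Y * hᵀ)).trace := by
    rw [trans_mul_trace]
    refine Finset.sum_congr rfl fun i _ => Finset.sum_congr rfl fun j _ => ?_
    rw [quad_entry, Finset.mul_sum]
    refine Finset.sum_congr rfl fun k _ => ?_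
    rw [Finset.mul_sum]
    refine Finset.sum_congr rfl fun l _ => ?_
    ring
  have hE2 : Eᵀ * θᵀ = 1 := by
    rw [← Matrix.transpose_mul, hE, Matrix.transpose_one]
  have hs : hᵀ = h := by
    rw [hh, Matrix.transpose_mul, Matrix.transpose_transpose]
  have e1 : h * Y * hᵀ = E * Zy * Eᵀ := by
    rw [hs, hY, hh]
    calc E * Eᵀ * (θᵀ * Zy * θ) * (E * Eᵀ) = E * (Eᵀ * θᵀ) * Zy * (θ * E) * Eᵀ := by
          simp only [Matrix.mul_assoc]
      _ = E * Zy * Eᵀ := by rw [hE2, hE, Matrix.mul_one, Matrix.mul_one]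
  rw [e0, e1, hX]
  have e2 : (θᵀ * Zx * θ)ᵀ = θᵀ * Zxᵀ * θ := by
    rw [Matrix.transpose_mul, Matrix.transpose_mul, Matrix.transpose_transpose, Matrix.mul_assoc]
  rw [e2]
  have e3 : θᵀ * Zxᵀ * θ * (E * Zy * Eᵀ) = θᵀ * (Zxᵀ * Zy * Eᵀ) := by
    calc θᵀ * Zxᵀ * θ * (E * Zy * Eᵀ) = θᵀ * Zxᵀ * (θ * E) * Zy * Eᵀ := by
          simp only [Matrix.mul_assoc]
      _ = θᵀ * (Zxᵀ * Zy * Eᵀ) := by
          rw [hE, Matrix.mul_one]
          simp only [Matrix.mul_assoc]
  rw [e3, Matrix.trace_mul_comm, Matrix.mul_assoc, hE2, Matrix.mul_one, trans_mul_trace]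

theorem conj_entry (θ : M5) (g : Fin 5 → Fin 5 → M5) (a b i j : Fin 5) :
    (∑ m, ∑ n, (θ m i * θ n j) • g m n) a b =
      (θᵀ * (Matrix.of fun m n => g m n a b) * θ) i j := by
  have e := quad_entry θᵀ (Matrix.of fun m n => g m n a b) i j
  rw [Matrix.transpose_transpose] at e
  rw [e]
  simp only [Matrix.sum_apply, Matrix.smul_apply, smul_eq_mul, Matrix.transpose_apply,
    Matrix.of_apply]

theorem nr_frame (h E θ : M5) (hE : θ * E = 1) (hE' : E * θ = 1) (hh : h = E * Eᵀ)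
    (P : Fin 5 → Fin 5 → M5) (R : Fin 5 → Fin 5 → M5)
    (hP : ∀ i j, P i j = ∑ m, ∑ n, (θ m i * θ n j) • (E * R m n * θ)) :
    ∑ i, ∑ j, ∑ k, ∑ l, h i k * h j l * (P i j * P k l).trace = ∑ m, ∑ n, (R m n * R m n).trace := by
  have e1 : ∀ i j k l, h i k * h j l * (P i j * P k l).trace =
      ∑ a, ∑ b, h i k * h j l * (P i j a b * P k l b a) := by
    intro i j k l
    simp only [Matrix.trace, Matrix.diag_apply, Matrix.mul_apply, Finset.mul_sum]
  have e2 : ∑ i, ∑ j, ∑ k, ∑ l, h i k * h j l * (P i j * P k l).trace =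
      ∑ a, ∑ b, ∑ i, ∑ j, ∑ k, ∑ l, h i k * h j l * (P i j a b * P k l b a) := by
    simp only [e1]
    calc ∑ i, ∑ j, ∑ k, ∑ l, ∑ a, ∑ b, h i k * h j l * (P i j a b * P k l b a)
        = ∑ i, ∑ j, ∑ k, ∑ a, ∑ b, ∑ l, h i k * h j l * (P i j a b * P k l b a) := by
          refine Finset.sum_congr rfl fun i _ => Finset.sum_congr rfl fun j _ =>
            Finset.sum_congr rfl fun k _ => swap2 _
      _ = ∑ i, ∑ j, ∑ a, ∑ b, ∑ k, ∑ l, h i k * h j l * (P i j a b * P k l b a) := by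
          refine Finset.sum_congr rfl fun i _ => Finset.sum_congr rfl fun j _ => swap2 _
      _ = ∑ i, ∑ a, ∑ b, ∑ j, ∑ k, ∑ l, h i k * h j l * (P i j a b * P k l b a) := by
          refine Finset.sum_congr rfl fun i _ => swap2 _
      _ = _ := swap2 _
  rw [e2]
  have e3 : ∀ a b, ∑ i, ∑ j, ∑ k, ∑ l, h i k * h j l * (P i j a b * P k l b a) =
      ∑ m, ∑ n, (E * R m n * θ) a b * (E * R m n * θ) b a := by
    intro a b
    have h1 : (Matrix.of fun i j => P i j a b) =
        θᵀ * (Matrix.of fun m n => (E * R m n * θ) a b) * θ := by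
      ext i j
      rw [Matrix.of_apply, hP, conj_entry θ (fun m n => E * R m n * θ)]
    have h2 : (Matrix.of fun i j => P i j b a) =
        θᵀ * (Matrix.of fun m n => (E * R m n * θ) b a) * θ := by
      ext i j
      rw [Matrix.of_apply, hP, conj_entry θ (fun m n => E * R m n * θ)]
    exact step h E θ _ _ _ _ hE hh h1 h2
  simp only [e3]
  calc ∑ a, ∑ b, ∑ m, ∑ n, (E * R m n * θ) a b * (E * R m n * θ) b a
      = ∑ a, ∑ m, ∑ n, ∑ b, (E * R m n * θ) a b * (E * R m n * θ) b a := by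
        refine Finset.sum_congr rfl fun a _ => swap2 _
    _ = ∑ m, ∑ n, ∑ a, ∑ b, (E * R m n * θ) a b * (E * R m n * θ) b a := swap2 _
    _ = ∑ m, ∑ n, (R m n * R m n).trace := by
        refine Finset.sum_congr rfl fun m _ => Finset.sum_congr rfl fun n _ => ?_
        have h3 : ∑ a, ∑ b, (E * R m n * θ) a b * (E * R m n * θ) b a =
            ((E * R m n * θ) * (E * R m n * θ)).trace := by
          simp only [Matrix.trace, Matrix.diag_apply, Matrix.mul_apply]
        rw [h3]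
        have h4 : (E * R m n * θ) * (E * R m n * θ) = E * (R m n * R m n * θ) := by
          calc (E * R m n * θ) * (E * R m n * θ) = E * R m n * (θ * E) * R m n * θ := by
                simp only [Matrix.mul_assoc]
            _ = _ := by
                rw [hE, Matrix.mul_one]
                simp only [Matrix.mul_assoc]
        rw [h4, Matrix.trace_mul_comm, Matrix.mul_assoc, hE, Matrix.mul_one]

/-- RNF. -/
theorem rnf (khf : KhfStmt) (emx : EmxStmt) (fra : FraStmt) (act : ActStmt) : RnfStmt := by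
  intro G x F hG hx hF
  obtain ⟨h0, hsucc, -, hskew, hRm, -⟩ := khf G x F hG hx hF
  obtain ⟨-, hE1, hE2, -, hinv, -⟩ := emx G x F hG hx hF
  have key : nr2 G x = ∑ a, ∑ b, ∑ c, ∑ d, Kf G x F a b c d ^ 2 := by
    have h1 : nr2 G x = - ∑ m, ∑ n, ((Matrix.of fun b a => Kh G x F m n a b) *
        (Matrix.of fun b a => Kh G x F m n a b) : M5).trace := by
      unfold nr2
      rw [nr_frame (gm (G x))⁻¹ (Em x F) (Em x F)⁻¹ hE2 hE1 hinv (Rm G x)
        (fun m n => Matrix.of fun b a => Kh G x F m n a b) hRm]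
    have h2 : ∀ m n, ((Matrix.of fun b a => Kh G x F m n a b) *
        (Matrix.of fun b a => Kh G x F m n a b) : M5).trace =
        - ∑ a, ∑ b, Kh G x F m n a b ^ 2 := by
      intro m n
      simp only [Matrix.trace, Matrix.diag_apply, Matrix.mul_apply, Matrix.of_apply]
      rw [← Finset.sum_neg_distrib]
      refine Finset.sum_congr rfl fun a _ => ?_
      rw [← Finset.sum_neg_distrib]
      refine Finset.sum_congr rfl fun b _ => ?_
      rw [hskew m n b a]
      ring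
    rw [h1]
    simp only [h2]
    simp only [Finset.sum_neg_distrib, neg_neg]
    have z1 : ∀ n a b, Kh G x F 0 n a b = 0 := fun n a b => h0 _ _ _ _ (Or.inl rfl)
    have z2 : ∀ m a b, Kh G x F m 0 a b = 0 := fun n a b => h0 _ _ _ _ (Or.inr (Or.inl rfl))
    have z3 : ∀ m n b, Kh G x F m n 0 b = 0 := fun n a b =>
      h0 _ _ _ _ (Or.inr (Or.inr (Or.inl rfl)))
    have z4 : ∀ m n a, Kh G x F m n a 0 = 0 := fun n a b =>
      h0 _ _ _ _ (Or.inr (Or.inr (Or.inr rfl)))
    have r4 : ∀ m n a, ∑ b, Kh G x F m n a b ^ 2 = ∑ b : Fin 4, Kh G x F m n a b.succ ^ 2 := by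
      intro m n a
      rw [Fin.sum_univ_succ, z4]
      norm_num
    have r3 : ∀ m n, ∑ a, ∑ b, Kh G x F m n a b ^ 2 =
        ∑ a : Fin 4, ∑ b : Fin 4, Kh G x F m n a.succ b.succ ^ 2 := by
      intro m n
      simp only [r4]
      rw [Fin.sum_univ_succ]
      simp only [z3]
      norm_num
    have r2 : ∀ m, ∑ n, ∑ a, ∑ b, Kh G x F m n a b ^ 2 =
        ∑ n : Fin 4, ∑ a : Fin 4, ∑ b : Fin 4, Kh G x F m n.succ a.succ b.succ ^ 2 := by
      intro m
      simp only [r3]
      rw [Fin.sum_univ_succ]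
      simp only [z2]
      norm_num
    simp only [r2]
    rw [Fin.sum_univ_succ]
    simp only [z1, hsucc]
    norm_num
  refine ⟨key, ?_⟩
  unfold rz
  rw [key, fra G x F hG hx hF, Pool.Agent.GBS.H92.alr (act G x F hG hx)]
  ring

end Pool.Agent.GBS.H77R
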